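import Pool.Agent.H84.B2.Targets
import Pool.Agent.H73.LS.FING

/-! # MP_ee74d2_an, BR board, module FN2 (helper69), after FN1 by helper71 -/

set_option autoImplicit false

namespace Pool.Agent.H69.BRF

open MeasureTheory Set FourierTransform
open Pool.Agent.H83.LS Pool.Agent.H54.LS Pool.Agent.H84.BR Pool.Agent.H84.B2
open scoped ENNReal NNReal SchwartzMap

/-- the geometric mean dominates the smaller number -/
lemma le_gm (a b : ℝ) (ha : 0 ≤ a) (hb : 0 ≤ b) (hab : a + b = 1) {N₀ N₁ : ℝ≥0∞}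
    (h : N₀ ≤ N₁) : N₀ ≤ N₀ ^ a * N₁ ^ b := by
  calc N₀ = N₀ ^ (a + b) := by rw [hab, ENNReal.rpow_one]
    _ = N₀ ^ a * N₀ ^ b := ENNReal.rpow_add_of_nonneg _ _ ha hb
    _ ≤ N₀ ^ a * N₁ ^ b := by gcongr

/-- powers of the geometric mean -/
lemma gm_rpow (a b p : ℝ) (hp : 0 ≤ p) (N₀ N₁ : ℝ≥0∞) :
    (N₀ ^ p) ^ a * (N₁ ^ p) ^ b = (N₀ ^ a * N₁ ^ b) ^ p := by
  rw [ENNReal.mul_rpow_of_nonneg _ _ hp, ← ENNReal.rpow_mul, ← ENNReal.rpow_mul,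
    ← ENNReal.rpow_mul, ← ENNReal.rpow_mul, mul_comm p a, mul_comm p b]

/-- FN2 -/
theorem pf_fn2 (hHG : T_HG2) (hLOWF : T_LOWF) (hYG : T_YG) (hPLE : T_PLE) : T_FN2 := by
  intro a b p σ ha hb hp hσ
  have haR : (2 : ℝ) ≤ a := by exact_mod_cast ha
  have hbR : (2 : ℝ) ≤ b := by exact_mod_cast hb
  set D : ℝ := (a : ℝ) + b - 1 with hD
  have hD0 : 0 < D := by rw [hD]; linarith
  have hcast : (((a + b : ℕ) : ℝ)) - 1 = D := by
    rw [hD]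
    push_cast
    ring
  have hp2 : 2 < p := by
    have : (0 : ℝ) < 2 / D := by positivity
    linarith
  have hp1 : 1 ≤ p := by linarith
  have hp0 : 0 < p := lt_of_lt_of_le one_pos hp1
  have hδ : 0 < (1 - p * σ) / 2 := by
    rw [lt_div_iff₀ hp0] at hσ
    nlinarith
  have ha' : 0 ≤ 1 - 2 / p := by
    rw [sub_nonneg, div_le_one hp0]
    exact hp2.le
  have hb' : 0 ≤ 2 / p := by positivity
  obtain ⟨C₀, h₀⟩ := hHG a b p (D / 2 - D / p - σ) ((1 - p * σ) / 2) ha hb hp hδ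
  obtain ⟨C₁, h₁⟩ := hHG a b p (D / 2 - D / p - 1 - σ) ((1 - p * σ) / 2) ha hb hp hδ
  obtain ⟨C, hC⟩ := Pool.Agent.H73.LS.both hLOWF hPLE hYG (a + b) (by omega) p
    ((1 - p * σ) / 2) (D / 2 - D / p - σ) (D / 2 - D / p - 1 - σ) hp1 hδ (C₀ + C₁)
  refine ⟨2 * C, fun u₀ u₁ N₀ N₁ hN hN₀ hN₁ => ?_⟩
  unfold dat at hN₀ hN₁
  simp only [hcast] at hN₀ hN₁
  have e₀ : D * (p / 2 - 1) - 1 - p * (D / 2 - D / p - σ) + (1 - p * σ) / 2 =
      -((1 - p * σ) / 2) := by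
    field_simp
    ring
  have e₁ : D * (p / 2 - 1) - 1 - p * (D / 2 - D / p - 1 - σ + 1) +
      (1 - p * σ) / 2 = -((1 - p * σ) / 2) := by
    field_simp
    ring
  have hGM : N₀ ≤ N₀ ^ (1 - 2 / p) * N₁ ^ (2 / p) := le_gm _ _ ha' hb' (by ring) hN
  have hDp : N₀ ^ p ≤ (N₀ ^ (1 - 2 / p) * N₁ ^ (2 / p)) ^ p := ENNReal.rpow_le_rpow hGM hp0.le
  have hNp : N₀ ^ p ≤ N₁ ^ p := ENNReal.rpow_le_rpow hN hp0.le
  have g₀ : ∫⁻ x, ‖besS (D / 2 - D / p - σ) u₀ x‖ₑ ^ p ≤ N₀ ^ p := by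
    rw [← Pool.Agent.H73.LS.eLp_pow p hp0]
    exact ENNReal.rpow_le_rpow (le_self_add.trans hN₀) hp0.le
  have g₁ : ∫⁻ x, ‖besS (D / 2 - D / p - 1 - σ) u₁ x‖ₑ ^ p ≤ N₀ ^ p := by
    rw [← Pool.Agent.H73.LS.eLp_pow p hp0]
    exact ENNReal.rpow_le_rpow (le_add_self.trans hN₀) hp0.le
  have k₀ : ∀ i j : Fin (a + b), (i.val < a ↔ j.val < a) →
      ∫⁻ x, ‖besS (D / 2 - D / p - σ) (rotd i j u₀) x‖ₑ ^ p ≤ N₁ ^ p := by
    intro i j hij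
    rw [← Pool.Agent.H73.LS.eLp_pow p hp0]
    exact ENNReal.rpow_le_rpow (le_self_add.trans (hN₁ i j hij)) hp0.le
  have k₁ : ∀ i j : Fin (a + b), (i.val < a ↔ j.val < a) →
      ∫⁻ x, ‖besS (D / 2 - D / p - 1 - σ) (rotd i j u₁) x‖ₑ ^ p ≤ N₁ ^ p := by
    intro i j hij
    rw [← Pool.Agent.H73.LS.eLp_pow p hp0]
    exact ENNReal.rpow_le_rpow (le_add_self.trans (hN₁ i j hij)) hp0.le
  refine (hC u₀ u₁ (N₀ ^ (1 - 2 / p) * N₁ ^ (2 / p)) (N₀ ^ (1 - 2 / p) * N₁ ^ (2 / p))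
    (g₀.trans hDp) (g₁.trans hDp) (fun lam hlam => ?_) (fun lam hlam => ?_)).trans ?_
  · have h2 := (h₀ lam u₀ (N₀ ^ p) (N₁ ^ p) hlam hNp g₀ k₀).1
    rw [e₀, gm_rpow _ _ _ hp0.le] at h2
    refine h2.trans ?_
    gcongr
    exact_mod_cast le_self_add
  · have h2 := (h₁ lam u₁ (N₀ ^ p) (N₁ ^ p) hlam hNp g₁ k₁).2
    rw [e₁, gm_rpow _ _ _ hp0.le] at h2
    refine h2.trans ?_
    gcongr
    exact_mod_cast le_add_self
  · push_cast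
    rw [← two_mul]
    apply le_of_eq
    ring

/-- END from the two cases -/
theorem pf_end (h1 : T_END1) (h2 : T_FN2) : T_END := by
  intro a b p σ ha hb hp hσ
  have haR : (2 : ℝ) ≤ a := by exact_mod_cast ha
  rcases eq_or_lt_of_le hb with hb1 | hb2
  · subst hb1
    have hp' : 2 * ((a : ℝ) + 1) / a ≤ p := by
      have e : (a : ℝ) + ((1 : ℕ) : ℝ) - 1 = a := by push_cast; ring
      rw [e] at hp
      simpa using hp
    obtain ⟨C, hC⟩ := h1 a p σ ha hp' hσ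
    refine ⟨C, fun u₀ u₁ N₀ N₁ hN hN₀ hN₁ => hC u₀ u₁ N₀ N₁ hN hN₀ fun i j => ?_⟩
    have h3 := hN₁ i.castSucc j.castSucc (by simp)
    exact h3
  · have hbR : (2 : ℝ) ≤ b := by exact_mod_cast hb2
    have hp' : 2 + 2 / ((a : ℝ) + b - 1) ≤ p := by
      refine le_trans (le_of_eq ?_) hp
      have : (a : ℝ) + b - 1 ≠ 0 := by
        have : (0 : ℝ) < a + b - 1 := by linarith
        exact this.ne'
      field_simp
      ring
    exact h2 a b p σ ha hb2 hp' hσ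

end Pool.Agent.H69.BRF
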