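import Pool.Agent.H79.BR.Targets

/-! # MP_ee74d2_an, BR board, module CKL: the kernel near the origin (helper69) -/

set_option autoImplicit false

namespace Pool.Agent.H69.BRC

open MeasureTheory Set FourierTransform
open Pool.Agent.H83.LS Pool.Agent.H93.AR Pool.Agent.H54.LS Pool.Agent.H14.LS Pool.Agent.H83.AR
open Pool.Agent.H79.BR
open scoped ENNReal NNReal

theorem eta_zero {s : ℝ} (hs : 2 ≤ s) : eta0 s = 0 :=
  Real.smoothTransition.zero_of_nonpos (by linarith)

theorem eta_one {s : ℝ} (hs : s ≤ 1) : eta0 s = 1 :=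
  Real.smoothTransition.one_of_one_le (by linarith)

theorem chi_zero_lo {s : ℝ} (hs : s ≤ 1 / 2) : chi s = 0 := by
  rw [chi, eta_one (by linarith), eta_one (by linarith), sub_self]

theorem chi_zero_hi {s : ℝ} (hs : 2 ≤ s) : chi s = 0 := by
  rw [chi, eta_zero hs, eta_zero (by linarith), sub_self]

theorem chi_smooth : ContDiff ℝ (⊤ : ℕ∞) chi := by
  have h : ContDiff ℝ (⊤ : ℕ∞) eta0 := by
    unfold eta0
    exact Real.smoothTransition.contDiff.comp (by fun_prop)
  unfold chi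
  exact h.sub (h.comp (by fun_prop))

/-- the amplitude as a function on `EE 1` -/
noncomputable def amp (n : ℕ) (q : (Fin 1 → ℝ) × EE 1) : ℂ :=
  (((q.2 0) ^ n * (chi (q.2 0) * chi (q.2 0 * q.1 0)) : ℝ) : ℂ)

theorem amp_smooth (n : ℕ) : ContDiff ℝ (⊤ : ℕ∞) (amp n) := by
  unfold amp
  have h1 : ContDiff ℝ (⊤ : ℕ∞) fun q : (Fin 1 → ℝ) × EE 1 => q.2 0 := by fun_prop
  have h2 : ContDiff ℝ (⊤ : ℕ∞) fun q : (Fin 1 → ℝ) × EE 1 => q.1 0 := by fun_prop
  have h3 : ContDiff ℝ (⊤ : ℕ∞) fun q : (Fin 1 → ℝ) × EE 1 =>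
      (q.2 0) ^ n * (chi (q.2 0) * chi (q.2 0 * q.1 0)) :=
    (h1.pow n).mul ((chi_smooth.comp h1).mul (chi_smooth.comp (h1.mul h2)))
  exact Complex.ofRealCLM.contDiff.comp h3

theorem norm_one (ξ : EE 1) : ‖ξ‖ = |ξ 0| := by
  rw [EuclideanSpace.norm_eq]
  simp [Real.sqrt_sq_eq_abs]

theorem mp_one : MeasurePreserving (fun ξ : EE 1 => ξ 0) (volume : Measure (EE 1)) volume := by
  have h1 := PiLp.volume_preserving_ofLp (Fin 1)
  have h2 := volume_preserving_funUnique (Fin 1) ℝ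
  exact h2.comp h1

theorem MK_one (g : ℝ → ℂ) (y : ℝ) :
    MK (fun ξ : EE 1 => g (ξ 0)) (EuclideanSpace.single 0 y) = ∫ s : ℝ, e (y * s) * g s := by
  unfold MK
  have h1 : ∀ ξ : EE 1, inner ℝ (EuclideanSpace.single (0 : Fin 1) y) ξ = y * ξ 0 := by
    intro ξ
    rw [PiLp.inner_apply]
    simp [mul_comm]
  simp only [h1]
  have hemb : MeasurableEmbedding (fun ξ : EE 1 => ξ 0) := by
    have h2 := ((MeasurableEquiv.toLp 2 (Fin 1 → ℝ)).symm.trans
      (MeasurableEquiv.funUnique (Fin 1) ℝ)).measurableEmbedding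
    exact h2
  exact mp_one.integral_comp hemb (fun s => e (y * s) * g s)

theorem pf_ckl (hCKP : T_CKP) (hKBV : T_KBV) : T_CKL := by
  intro n N hn
  set N' : ℕ := N + n + 1 with hN'
  obtain ⟨C, hC⟩ := hKBV 1 1 (Icc (0 : Fin 1 → ℝ) (fun _ => 8)) univ (amp n) 2 isCompact_Icc
    isOpen_univ (subset_univ _) (amp_smooth n).contDiffOn (by
      intro p _ ξ hξ
      rw [norm_one] at hξ
      have h : chi (ξ 0) = 0 := by
        rcases lt_abs.1 hξ with h | h
        · exact chi_zero_hi h.le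
        · exact chi_zero_lo (by linarith)
      unfold amp
      rw [h, zero_mul, mul_zero, Complex.ofReal_zero]) N'
  have hC0 : 0 ≤ C := by
    refine le_trans ?_ (hC 0 ⟨le_refl _, fun _ => by norm_num⟩ 0)
    positivity
  -- the one dimensional bound
  have key : ∀ (κ y : ℝ), 0 ≤ κ →
      ‖∫ s : ℝ, e (s * y) * ((s ^ n * (chi s * chi (s * κ)) : ℝ) : ℂ)‖ * (1 + |y|) ^ N' ≤ C := by
    intro κ y hκ
    rcases le_or_gt κ 8 with h | h
    · have h1 := hC (fun _ => κ) ⟨fun _ => hκ, fun _ => h⟩ (EuclideanSpace.single 0 y)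
      have h2 : MK (fun ξ : EE 1 => amp n (fun _ => κ, ξ)) (EuclideanSpace.single 0 y) =
          ∫ s : ℝ, e (s * y) * ((s ^ n * (chi s * chi (s * κ)) : ℝ) : ℂ) := by
        have h3 := MK_one (fun s : ℝ => ((s ^ n * (chi s * chi (s * κ)) : ℝ) : ℂ)) y
        simp only [mul_comm y] at h3
        exact h3
      rw [h2] at h1
      have h4 : ‖(EuclideanSpace.single (0 : Fin 1) y : EE 1)‖ = |y| := by
        rw [norm_one]
        simp
      rwa [h4] at h1
    · have h1 : ∀ s : ℝ, e (s * y) * ((s ^ n * (chi s * chi (s * κ)) : ℝ) : ℂ) = 0 := by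
        intro s
        rcases le_or_gt s (1 / 2) with hs | hs
        · rw [chi_zero_lo hs]
          simp
        · have : 2 ≤ s * κ := by nlinarith
          rw [chi_zero_hi this]
          simp
      simp only [h1, integral_zero, norm_zero, zero_mul]
      exact hC0
  set V : ℝ := (sg (n + 1)).real univ with hV
  have hV0 : 0 ≤ V := measureReal_nonneg
  refine ⟨V * C * 2 ^ N', by positivity, fun lam Lam t x hlam hLam _ ht hx => ?_⟩
  have hlam0 : 0 < lam := by linarith
  rw [(hCKP n lam Lam t x (by omega) hlam0 hLam).1, norm_mul, Complex.norm_real,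
    Real.norm_of_nonneg (by positivity)]
  have hb : ∀ w : Sp (n + 1), ‖∫ s : ℝ, e (s * (lam * (t + inner ℝ x (w : EE (n + 1))))) *
      gj n (Lam / lam) (s, (w : EE (n + 1)))‖ ≤ C * 2 ^ N' * (lam ^ N')⁻¹ := by
    intro w
    have hw : ‖(w : EE (n + 1))‖ = 1 := by
      have := w.2
      rwa [mem_sphere_zero_iff_norm] at this
    have hκ : 0 ≤ hor (w : EE (n + 1)) / (Lam / lam) :=
      div_nonneg (Pool.Agent.H54.LS.hor_nonneg _) (by positivity)
    have h1 := key (hor (w : EE (n + 1)) / (Lam / lam))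
      (lam * (t + inner ℝ x (w : EE (n + 1)))) hκ
    have h2 : ∀ s : ℝ, gj n (Lam / lam) (s, (w : EE (n + 1))) =
        ((s ^ n * (chi s * chi (s * (hor (w : EE (n + 1)) / (Lam / lam)))) : ℝ) : ℂ) := by
      intro s
      unfold gj
      rw [mul_div_assoc]
    simp only [h2]
    have h3 : |inner ℝ x (w : EE (n + 1))| ≤ 1 / 4 := by
      refine (abs_real_inner_le_norm _ _).trans ?_
      rw [hw, mul_one]
      exact hx
    have h4 : lam / 2 ≤ 1 + |lam * (t + inner ℝ x (w : EE (n + 1)))| := by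
      have h5 := (abs_le.1 h3).1
      have h6 : lam * (3 / 4) ≤ lam * (t + inner ℝ x (w : EE (n + 1))) :=
        mul_le_mul_of_nonneg_left (by linarith) hlam0.le
      have h7 := le_abs_self (lam * (t + inner ℝ x (w : EE (n + 1))))
      linarith
    have h5 : (lam / 2) ^ N' ≤ (1 + |lam * (t + inner ℝ x (w : EE (n + 1)))|) ^ N' :=
      pow_le_pow_left₀ (by positivity) h4 _
    have h6 : (0 : ℝ) < (lam / 2) ^ N' := by positivity
    have h7 := (mul_le_mul_of_nonneg_left h5 (norm_nonneg _)).trans h1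
    rw [← le_div_iff₀ h6] at h7
    refine h7.trans (le_of_eq ?_)
    rw [div_pow]
    field_simp
  have h1 := norm_integral_le_of_norm_le_const (μ := sg (n + 1)) (Filter.Eventually.of_forall hb)
  calc lam ^ (n + 1) * ‖∫ w : Sp (n + 1), ∫ s : ℝ,
        e (s * (lam * (t + inner ℝ x (w : EE (n + 1))))) *
          gj n (Lam / lam) (s, (w : EE (n + 1))) ∂volume ∂(sg (n + 1))‖
      ≤ lam ^ (n + 1) * (C * 2 ^ N' * (lam ^ N')⁻¹ * V) :=
        mul_le_mul_of_nonneg_left h1 (by positivity)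
    _ = V * C * 2 ^ N' * (lam ^ N)⁻¹ := by
        have : lam ^ N' = lam ^ N * lam ^ (n + 1) := by
          rw [hN', ← pow_add, add_assoc]
        rw [this]
        field_simp

end Pool.Agent.H69.BRC
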