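import Pool.Agent.H69.BR.AD2
import Pool.Agent.H86.AR.AM

/-! # MP_ee74d2_an, BR board, module AD (helper69) -/

set_option autoImplicit false

namespace Pool.Agent.H69.BR

open MeasureTheory Set Pool.Agent.H83.LS Pool.Agent.H54.LS Pool.Agent.H93.AR Pool.Agent.H86.AR
open scoped ENNReal NNReal SchwartzMap

theorem bump_scale (n : ℕ) {L s : ℝ} (hs : 0 < s) (y : EE n) :
    bump n (L / s) (s • y) = (s ^ n)⁻¹ * bump n L y := by
  unfold bump
  rw [norm_smul, Real.norm_of_nonneg hs.le, div_pow]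
  have h1 : L / s * (s * ‖y‖) = L * ‖y‖ := by field_simp
  rw [h1]
  field_simp

theorem scale (hZP : T_ZP) {n : ℕ} {L s : ℝ} (hn : 1 ≤ n) (hL : 0 < L) (hs : 0 < s) (w : EE n)
    {h : EE n → ℝ≥0∞} (hh : Measurable h) :
    ∫⁻ y : EE n, ENNReal.ofReal (bump n L y) * h (un (w + s • y)) =
      ∫⁻ w' : Sp n, ENNReal.ofReal (zk n (L / s) w w') * h w' ∂(sg n) := by
  rw [hZP n (L / s) w h hn (div_pos hL hs) hh]
  set F : EE n → ℝ≥0∞ := fun y => ENNReal.ofReal (bump n (L / s) y) * h (un (w + y)) with hF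
  have hFm : Measurable F := by
    have h1 : Measurable fun y : EE n => un (w + y) :=
      un_meas.comp (measurable_const.add measurable_id)
    exact (bump_cont n (L / s)).measurable.ennreal_ofReal.mul (hh.comp h1)
  have hsn : (0 : ℝ) < (s ^ n)⁻¹ := by positivity
  have h1 : ∫⁻ y : EE n, F (s • y) = ENNReal.ofReal (s ^ n)⁻¹ *
      ∫⁻ y : EE n, ENNReal.ofReal (bump n L y) * h (un (w + s • y)) := by
    rw [← lintegral_const_mul' _ _ ENNReal.ofReal_ne_top]
    refine lintegral_congr fun y => ?_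
    simp only [hF]
    rw [bump_scale n hs, ENNReal.ofReal_mul hsn.le, mul_assoc]
  have h2 : ∫⁻ y : EE n, F (s • y) = ENNReal.ofReal (s ^ n)⁻¹ * ∫⁻ y : EE n, F y := by
    rw [← lintegral_map (μ := (volume : Measure (EE n))) (f := F) (g := fun y => s • y) hFm
      (measurable_const_smul s), Measure.map_addHaar_smul _ hs.ne', lintegral_smul_measure,
      finrank_euclideanSpace_fin, abs_of_pos hsn, smul_eq_mul]
  have h3 := h1.symm.trans h2
  have h4 := (ENNReal.mul_right_inj (ENNReal.ofReal_pos.2 hsn).ne' ENNReal.ofReal_ne_top).1 h3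
  exact h4

theorem zk_mass (hZN : T_ZN) (hZB : T_ZB) {n : ℕ} {L : ℝ} (hn : 1 ≤ n) (hL : 1 ≤ L)
    {H : EE (n + 1) → ℝ≥0∞} (hH : Measurable H) :
    ∫⁻ q : Sp n × (Ioi (0 : ℝ) × ℝ), ∫⁻ w : Sp n, ENNReal.ofReal (zk n L (q.1 : EE n) (w : EE n)) *
        H (jo ((q.2.1 : ℝ) • (w : EE n)) q.2.2) ∂(sg n) ∂((sg n).prod ((nu n).prod volume)) =
      ∫⁻ x, H x := by
  have hjm : Measurable fun q : Sp n × (Ioi (0 : ℝ) × ℝ) => jo ((q.2.1 : ℝ) • (q.1 : EE n)) q.2.2 :=
    (mp_cyl n hn).measurable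
  rw [← (mp_cyl n hn).lintegral_comp hH]
  have hF : Measurable fun r : (Sp n × (Ioi (0 : ℝ) × ℝ)) × Sp n =>
      ENNReal.ofReal (zk n L (r.1.1 : EE n) (r.2 : EE n)) *
        H (jo ((r.1.2.1 : ℝ) • (r.2 : EE n)) r.1.2.2) := by
    have a1 : Measurable fun r : (Sp n × (Ioi (0 : ℝ) × ℝ)) × Sp n =>
        ((r.1.1 : EE n), (r.2 : EE n)) :=
      (measurable_subtype_coe.comp (measurable_fst.comp measurable_fst)).prodMk
        (measurable_subtype_coe.comp measurable_snd)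
    have a2 := ((zk_meas hZB hn hL).comp a1).ennreal_ofReal
    have a3 : Measurable fun r : (Sp n × (Ioi (0 : ℝ) × ℝ)) × Sp n => (r.2, r.1.2) :=
      measurable_snd.prodMk (measurable_snd.comp measurable_fst)
    have a4 := hH.comp (hjm.comp a3)
    exact a2.mul a4
  have hFm : Measurable fun q : Sp n × (Ioi (0 : ℝ) × ℝ) =>
      ∫⁻ w : Sp n, ENNReal.ofReal (zk n L (q.1 : EE n) (w : EE n)) *
        H (jo ((q.2.1 : ℝ) • (w : EE n)) q.2.2) ∂(sg n) := hF.lintegral_prod_right'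
  have hRm : Measurable fun q : Sp n × (Ioi (0 : ℝ) × ℝ) =>
      H (jo ((q.2.1 : ℝ) • (q.1 : EE n)) q.2.2) := hH.comp hjm
  rw [lintegral_prod_symm _ hFm.aemeasurable, lintegral_prod_symm _ hRm.aemeasurable]
  refine lintegral_congr fun s => ?_
  dsimp only
  have hswap : Measurable fun r : Sp n × Sp n =>
      ENNReal.ofReal (zk n L (r.1 : EE n) (r.2 : EE n)) *
        H (jo ((s.1 : ℝ) • (r.2 : EE n)) s.2) := by
    have a1 : Measurable fun r : Sp n × Sp n => ((r.1, s), r.2) :=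
      (measurable_fst.prodMk measurable_const).prodMk measurable_snd
    have a2 := hF.comp a1
    exact a2
  rw [lintegral_lintegral_swap hswap.aemeasurable]
  refine lintegral_congr fun w => ?_
  have hkm : Measurable fun w' : Sp n => ENNReal.ofReal (zk n L (w' : EE n) (w : EE n)) := by
    have a1 : Measurable fun w' : Sp n => ((w' : EE n), (w : EE n)) :=
      measurable_subtype_coe.prodMk measurable_const
    have a2 := ((zk_meas hZB hn hL).comp a1).ennreal_ofReal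
    exact a2
  rw [lintegral_mul_const _ hkm]
  have e2 : ∫⁻ w' : Sp n, ENNReal.ofReal (zk n L (w' : EE n) (w : EE n)) ∂(sg n) = 1 := by
    rw [← hZN n L (w : EE n) hn hL (Or.inr (sp_norm w))]
    refine lintegral_congr fun w' => ?_
    rw [zk_symm hZB hn hL (sp_norm w') (sp_norm w)]
  rw [e2, one_mul]

/-- the integrand in all variables -/
theorem meas_phi {n : ℕ} (L : ℝ) {H : EE (n + 1) → ℝ≥0∞} (hH : Measurable H) :
    Measurable fun a : ((Sp n × (Ioi (0 : ℝ) × ℝ)) × ℝ) × EE n =>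
      ENNReal.ofReal (bump n L a.2) *
        H (jo ((a.1.1.2.1 : ℝ) • un ((a.1.1.1 : EE n) + a.1.2 • a.2)) a.1.1.2.2) := by
  have h1 : Measurable fun a : ((Sp n × (Ioi (0 : ℝ) × ℝ)) × ℝ) × EE n =>
      ((a.1.1.1 : EE n) + a.1.2 • a.2) :=
    (measurable_subtype_coe.comp (measurable_fst.comp (measurable_fst.comp measurable_fst))).add
      ((measurable_snd.comp measurable_fst).smul measurable_snd)
  have h2 : Measurable fun a : ((Sp n × (Ioi (0 : ℝ) × ℝ)) × ℝ) × EE n => (a.1.1.2.1 : ℝ) :=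
    measurable_subtype_coe.comp (measurable_fst.comp (measurable_snd.comp
      (measurable_fst.comp measurable_fst)))
  have h3 : Measurable fun a : ((Sp n × (Ioi (0 : ℝ) × ℝ)) × ℝ) × EE n => a.1.1.2.2 :=
    measurable_snd.comp (measurable_snd.comp (measurable_fst.comp measurable_fst))
  have h4 := continuous_jo.measurable.comp ((h2.smul (un_meas.comp h1)).prodMk h3)
  have h5 : Measurable fun a : ((Sp n × (Ioi (0 : ℝ) × ℝ)) × ℝ) × EE n =>
      ENNReal.ofReal (bump n L a.2) :=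
    (bump_cont n L).measurable.ennreal_ofReal.comp measurable_snd
  exact h5.mul (hH.comp h4)

theorem mass (hZP : T_ZP) (hZN : T_ZN) (hZB : T_ZB) {n : ℕ} {L : ℝ} (hn : 1 ≤ n) (hL : 1 ≤ L)
    {H : EE (n + 1) → ℝ≥0∞} (hH : Measurable H) :
    ∫⁻ q : Sp n × (Ioi (0 : ℝ) × ℝ), (∫⁻ y : EE n, ENNReal.ofReal (bump n L y) *
      ∫⁻ s in Ioc (0 : ℝ) 1, H (jo ((q.2.1 : ℝ) • un ((q.1 : EE n) + s • y)) q.2.2))
      ∂((sg n).prod ((nu n).prod volume)) = ∫⁻ x, H x := by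
  have hL0 : 0 < L := by linarith
  have hphi := meas_phi L hH
  -- swap `y` and `s`
  have e1 : ∀ q : Sp n × (Ioi (0 : ℝ) × ℝ), (∫⁻ y : EE n, ENNReal.ofReal (bump n L y) *
      ∫⁻ s in Ioc (0 : ℝ) 1, H (jo ((q.2.1 : ℝ) • un ((q.1 : EE n) + s • y)) q.2.2)) =
      ∫⁻ s in Ioc (0 : ℝ) 1, ∫⁻ y : EE n, ENNReal.ofReal (bump n L y) *
        H (jo ((q.2.1 : ℝ) • un ((q.1 : EE n) + s • y)) q.2.2) := by
    intro q
    have a1 : ∀ y : EE n, ENNReal.ofReal (bump n L y) *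
        ∫⁻ s in Ioc (0 : ℝ) 1, H (jo ((q.2.1 : ℝ) • un ((q.1 : EE n) + s • y)) q.2.2) =
        ∫⁻ s in Ioc (0 : ℝ) 1, ENNReal.ofReal (bump n L y) *
          H (jo ((q.2.1 : ℝ) • un ((q.1 : EE n) + s • y)) q.2.2) := fun y =>
      (lintegral_const_mul' _ _ ENNReal.ofReal_ne_top).symm
    simp only [a1]
    have a2 : Measurable fun b : EE n × ℝ => ENNReal.ofReal (bump n L b.1) *
        H (jo ((q.2.1 : ℝ) • un ((q.1 : EE n) + b.2 • b.1)) q.2.2) := by
      have a3 : Measurable fun b : EE n × ℝ => ((q, b.2), b.1) :=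
        (measurable_const.prodMk measurable_snd).prodMk measurable_fst
      have a4 := hphi.comp a3
      exact a4
    exact lintegral_lintegral_swap (μ := (volume : Measure (EE n)))
      (ν := volume.restrict (Ioc (0 : ℝ) 1)) a2.aemeasurable
  simp only [e1]
  -- swap `q` and `s`
  have hm : Measurable fun b : (Sp n × (Ioi (0 : ℝ) × ℝ)) × ℝ =>
      ∫⁻ y : EE n, ENNReal.ofReal (bump n L y) *
        H (jo ((b.1.2.1 : ℝ) • un ((b.1.1 : EE n) + b.2 • y)) b.1.2.2) :=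
    hphi.lintegral_prod_right'
  rw [lintegral_lintegral_swap (μ := (sg n).prod ((nu n).prod volume))
    (ν := volume.restrict (Ioc (0 : ℝ) 1)) hm.aemeasurable]
  have e2 : ∀ s ∈ Ioc (0 : ℝ) 1, ∫⁻ q : Sp n × (Ioi (0 : ℝ) × ℝ),
      (∫⁻ y : EE n, ENNReal.ofReal (bump n L y) *
        H (jo ((q.2.1 : ℝ) • un ((q.1 : EE n) + s • y)) q.2.2))
        ∂((sg n).prod ((nu n).prod volume)) = ∫⁻ x, H x := by
    intro s hs
    have hLs : 1 ≤ L / s := by
      rw [le_div_iff₀ hs.1]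
      linarith [hs.2]
    rw [← zk_mass hZN hZB hn hLs hH]
    refine lintegral_congr fun q => ?_
    have hh : Measurable fun v : EE n => H (jo ((q.2.1 : ℝ) • v) q.2.2) := by
      have h2 : Continuous fun v : EE n => jo ((q.2.1 : ℝ) • v) q.2.2 :=
        continuous_jo.comp ((continuous_const_smul (q.2.1 : ℝ)).prodMk continuous_const)
      exact hH.comp h2.measurable
    exact scale hZP hn hL0 hs.1 (q.1 : EE n) hh
  rw [setLIntegral_congr_fun measurableSet_Ioc e2, setLIntegral_const, Real.volume_Ioc]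
  simp

theorem pf_ad (hZP : T_ZP) (hZN : T_ZN) (hZB : T_ZB) : T_AD := by
  intro n p hn hp
  have hp0 : 0 ≤ p := by linarith
  set K0 : ℝ≥0∞ := ENNReal.ofReal (2 ^ p) *
    ((n : ℝ≥0∞) ^ (p - 1) * (n : ℝ≥0∞) ^ (p - 1)) with hK0
  have hne : ((n : ℝ≥0∞) ^ (p - 1)) ≠ ⊤ :=
    ENNReal.rpow_ne_top_of_nonneg (by linarith) (ENNReal.natCast_ne_top n)
  have hK0t : K0 ≠ ⊤ := ENNReal.mul_ne_top ENNReal.ofReal_ne_top (ENNReal.mul_ne_top hne hne)
  refine ⟨K0.toNNReal, fun L f hL => ?_⟩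
  rw [ENNReal.coe_toNNReal hK0t]
  have hL0 : 0 < L := by linarith
  have hfm : Measurable (f : EE (n + 1) → ℂ) := f.continuous.measurable
  have hdm : Measurable fun x => ‖f x - AL L f x‖ₑ ^ p :=
    (hfm.sub (AL_meas hZB hn hL f hfm)).enorm.pow_const p
  have hRm : ∀ i j : Fin n, Measurable fun x => ‖rot i j f x‖ₑ ^ p := fun i j =>
    (rot_cont f i j).measurable.enorm.pow_const p
  set K : ℝ≥0∞ := (ENNReal.ofReal (2 / L)) ^ p *
    ((n : ℝ≥0∞) ^ (p - 1) * (n : ℝ≥0∞) ^ (p - 1)) with hK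
  have hKt : K ≠ ⊤ := ENNReal.mul_ne_top
    (ENNReal.rpow_ne_top_of_nonneg hp0 ENNReal.ofReal_ne_top) (ENNReal.mul_ne_top hne hne)
  have hKK : K = K0 * ENNReal.ofReal (L ^ (-p)) := by
    rw [hK, hK0, ENNReal.ofReal_rpow_of_nonneg (by positivity) hp0, div_eq_mul_inv,
      Real.mul_rpow (by norm_num) (by positivity), Real.inv_rpow hL0.le, ← Real.rpow_neg hL0.le,
      ENNReal.ofReal_mul (by positivity)]
    ring
  have hphim : ∀ i j : Fin n, Measurable fun q : Sp n × (Ioi (0 : ℝ) × ℝ) =>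
      ∫⁻ y : EE n, ENNReal.ofReal (bump n L y) *
        ∫⁻ s in Ioc (0 : ℝ) 1, ‖rot i j f (jo ((q.2.1 : ℝ) • un ((q.1 : EE n) + s • y))
          q.2.2)‖ₑ ^ p := by
    intro i j
    have h1 : Measurable fun a : ((Sp n × (Ioi (0 : ℝ) × ℝ)) × EE n) × ℝ =>
        ‖rot i j f (jo ((a.1.1.2.1 : ℝ) • un ((a.1.1.1 : EE n) + a.2 • a.1.2))
          a.1.1.2.2)‖ₑ ^ p := by
      have g1 : Measurable fun a : ((Sp n × (Ioi (0 : ℝ) × ℝ)) × EE n) × ℝ =>
          ((a.1.1.1 : EE n) + a.2 • a.1.2) :=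
        (measurable_subtype_coe.comp (measurable_fst.comp
          (measurable_fst.comp measurable_fst))).add
          (measurable_snd.smul (measurable_snd.comp measurable_fst))
      have g2 : Measurable fun a : ((Sp n × (Ioi (0 : ℝ) × ℝ)) × EE n) × ℝ =>
          (a.1.1.2.1 : ℝ) :=
        measurable_subtype_coe.comp (measurable_fst.comp (measurable_snd.comp
          (measurable_fst.comp measurable_fst)))
      have g3 : Measurable fun a : ((Sp n × (Ioi (0 : ℝ) × ℝ)) × EE n) × ℝ => a.1.1.2.2 :=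
        measurable_snd.comp (measurable_snd.comp (measurable_fst.comp measurable_fst))
      have g4 := continuous_jo.measurable.comp ((g2.smul (un_meas.comp g1)).prodMk g3)
      exact (hRm i j).comp g4
    have h2 : Measurable fun b : (Sp n × (Ioi (0 : ℝ) × ℝ)) × EE n =>
        ∫⁻ s in Ioc (0 : ℝ) 1, ‖rot i j f (jo ((b.1.2.1 : ℝ) • un ((b.1.1 : EE n) + s • b.2))
          b.1.2.2)‖ₑ ^ p := h1.lintegral_prod_right'
    have h3 : Measurable fun b : (Sp n × (Ioi (0 : ℝ) × ℝ)) × EE n =>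
        ENNReal.ofReal (bump n L b.2) * ∫⁻ s in Ioc (0 : ℝ) 1,
          ‖rot i j f (jo ((b.1.2.1 : ℝ) • un ((b.1.1 : EE n) + s • b.2)) b.1.2.2)‖ₑ ^ p :=
      ((bump_cont n L).measurable.ennreal_ofReal.comp measurable_snd).mul h2
    exact h3.lintegral_prod_right'
  rw [← (mp_cyl n hn).lintegral_comp hdm]
  calc ∫⁻ q : Sp n × (Ioi (0 : ℝ) × ℝ), ‖f (jo ((q.2.1 : ℝ) • (q.1 : EE n)) q.2.2) -
        AL L f (jo ((q.2.1 : ℝ) • (q.1 : EE n)) q.2.2)‖ₑ ^ p ∂((sg n).prod ((nu n).prod volume))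
      ≤ ∫⁻ q : Sp n × (Ioi (0 : ℝ) × ℝ), (K * ∑ i : Fin n, ∑ j : Fin n,
        ∫⁻ y : EE n, ENNReal.ofReal (bump n L y) * ∫⁻ s in Ioc (0 : ℝ) 1,
          ‖rot i j f (jo ((q.2.1 : ℝ) • un ((q.1 : EE n) + s • y)) q.2.2)‖ₑ ^ p)
        ∂((sg n).prod ((nu n).prod volume)) := by
        refine lintegral_mono fun q => ?_
        exact point hZP hZN hZB hn hL hp f q.2.1.2 q.1 q.2.2
    _ = K * ∑ i : Fin n, ∑ j : Fin n, ∫⁻ x, ‖rot i j f x‖ₑ ^ p := by
        rw [lintegral_const_mul' _ _ hKt, lintegral_finsetSum _ fun i _ =>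
          Finset.measurable_sum _ fun j _ => hphim i j]
        congr 1
        refine Finset.sum_congr rfl fun i _ => ?_
        rw [lintegral_finsetSum _ fun j _ => hphim i j]
        refine Finset.sum_congr rfl fun j _ => ?_
        exact mass hZP hZN hZB hn hL (hRm i j)
    _ = K0 * ENNReal.ofReal (L ^ (-p)) *
        ∑ i : Fin n, ∑ j : Fin n, ∫⁻ x, ‖rot i j f x‖ₑ ^ p := by rw [hKK]

end Pool.Agent.H69.BR
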