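import Pool.Agent.H86.AR.Base

/-! # MP_ee74d2_an, BR board, module AD, part 1: the estimate along one arc (helper69) -/

set_option autoImplicit false

namespace Pool.Agent.H69.BR

open MeasureTheory Set Pool.Agent.H83.LS Pool.Agent.H54.LS Pool.Agent.H93.AR Pool.Agent.H86.AR
open scoped ENNReal NNReal SchwartzMap

/-- the unit vector -/
noncomputable def un {n : ℕ} (v : EE n) : EE n := ‖v‖⁻¹ • v

/-- the derivative of `un (w + s y)` -/
noncomputable def du {n : ℕ} (v y : EE n) : EE n := ‖v‖⁻¹ • y - (inner ℝ v y / ‖v‖ ^ 3) • v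

theorem un_norm {n : ℕ} {v : EE n} (hv : v ≠ 0) : ‖un v‖ = 1 := by
  rw [un, norm_smul, norm_inv, norm_norm, inv_mul_cancel₀ (norm_ne_zero_iff.2 hv)]

theorem un_inner_du {n : ℕ} {v : EE n} (hv : v ≠ 0) (y : EE n) : inner ℝ (un v) (du v y) = 0 := by
  have h : ‖v‖ ≠ 0 := norm_ne_zero_iff.2 hv
  rw [un, du, inner_sub_right, inner_smul_left, inner_smul_left, inner_smul_right,
    inner_smul_right, real_inner_self_eq_norm_sq]
  simp only [conj_trivial]
  field_simp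
  ring

theorem du_norm {n : ℕ} {v : EE n} (hv : v ≠ 0) (y : EE n) : ‖du v y‖ ≤ 2 * ‖y‖ / ‖v‖ := by
  have h : 0 < ‖v‖ := norm_pos_iff.2 hv
  have h1 : ‖du v y‖ ≤ ‖‖v‖⁻¹ • y‖ + ‖(inner ℝ v y / ‖v‖ ^ 3) • v‖ := norm_sub_le _ _
  have h2 : ‖‖v‖⁻¹ • y‖ = ‖y‖ / ‖v‖ := by
    rw [norm_smul, norm_inv, norm_norm]
    ring
  have h3 : ‖(inner ℝ v y / ‖v‖ ^ 3) • v‖ ≤ ‖y‖ / ‖v‖ := by
    rw [norm_smul, norm_div, norm_pow, norm_norm]
    have h4 : ‖(inner ℝ v y : ℝ)‖ ≤ ‖v‖ * ‖y‖ := norm_inner_le_norm v y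
    calc ‖(inner ℝ v y : ℝ)‖ / ‖v‖ ^ 3 * ‖v‖ ≤ (‖v‖ * ‖y‖) / ‖v‖ ^ 3 * ‖v‖ := by gcongr
      _ = ‖y‖ / ‖v‖ := by field_simp
  calc ‖du v y‖ ≤ ‖y‖ / ‖v‖ + ‖y‖ / ‖v‖ := h1.trans (by rw [h2]; linarith)
    _ = 2 * ‖y‖ / ‖v‖ := by ring

theorem un_deriv {n : ℕ} (w y : EE n) (s : ℝ) (hv : w + s • y ≠ 0) :
    HasDerivAt (fun s : ℝ => un (w + s • y)) (du (w + s • y) y) s := by
  have h0 : ‖w + s • y‖ ≠ 0 := norm_ne_zero_iff.2 hv
  have hl : HasDerivAt (fun s : ℝ => w + s • y) y s := by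
    have := ((hasDerivAt_id s).smul_const y).const_add w
    simpa using this
  have h1 : HasDerivAt (fun s : ℝ => ‖w + s • y‖ ^ 2) (2 * inner ℝ (w + s • y) y) s :=
    hl.norm_sq
  have h2 : HasDerivAt (fun s : ℝ => Real.sqrt (‖w + s • y‖ ^ 2))
      (2 * inner ℝ (w + s • y) y / (2 * Real.sqrt (‖w + s • y‖ ^ 2))) s :=
    h1.sqrt (by positivity)
  have h3 : (fun s : ℝ => Real.sqrt (‖w + s • y‖ ^ 2)) = fun s => ‖w + s • y‖ := by
    funext t
    exact Real.sqrt_sq (norm_nonneg _)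
  rw [h3, Real.sqrt_sq (norm_nonneg _)] at h2
  have h4 := (h2.inv h0).smul hl
  have h5 : du (w + s • y) y = ‖w + s • y‖⁻¹ • y +
      (-(2 * inner ℝ (w + s • y) y / (2 * ‖w + s • y‖)) / ‖w + s • y‖ ^ 2) • (w + s • y) := by
    rw [du, sub_eq_add_neg, ← neg_smul]
    congr 2
    field_simp
  rw [h5]
  exact h4

/-- `jo y 0` as a linear map -/
noncomputable def J0 (n : ℕ) : EE n →ₗ[ℝ] EE (n + 1) where
  toFun y := jo y 0
  map_add' y y' := by
    ext i
    refine Fin.lastCases ?_ (fun j => ?_) i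
    · rw [jo_last, PiLp.add_apply, jo_last, jo_last, add_zero]
    · rw [jo_castSucc, PiLp.add_apply, PiLp.add_apply, jo_castSucc, jo_castSucc]
  map_smul' c y := by
    ext i
    refine Fin.lastCases ?_ (fun j => ?_) i
    · rw [jo_last, PiLp.smul_apply, jo_last, smul_zero]
    · rw [jo_castSucc, PiLp.smul_apply, PiLp.smul_apply, jo_castSucc]
      rfl

theorem jo_split {n : ℕ} (y : EE n) (z : ℝ) : jo y z = J0 n y + jo 0 z := by
  have h0 : J0 n y = jo y 0 := rfl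
  rw [h0]
  ext i
  refine Fin.lastCases ?_ (fun j => ?_) i
  · rw [jo_last, PiLp.add_apply, jo_last, jo_last, zero_add]
  · rw [jo_castSucc, PiLp.add_apply, jo_castSucc, jo_castSucc, PiLp.zero_apply, add_zero]

theorem J0_sum {n : ℕ} (y : EE n) :
    J0 n y = ∑ j : Fin n, y j • EuclideanSpace.single j.castSucc (1 : ℝ) := by
  have h : y = ∑ j : Fin n, y j • EuclideanSpace.single j (1 : ℝ) := by
    ext i
    rw [WithLp.ofLp_sum, Finset.sum_apply, Finset.sum_eq_single i]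
    · simp
    · intro j _ hj
      simp [hj.symm]
    · simp
  conv_lhs => rw [h]
  rw [map_sum]
  refine Finset.sum_congr rfl fun j _ => ?_
  rw [map_smul]
  congr 1
  ext i
  show (jo (EuclideanSpace.single j (1 : ℝ)) 0) i = _
  refine Fin.lastCases ?_ (fun k => ?_) i
  · rw [jo_last]
    simp [(Fin.castSucc_lt_last j).ne']
  · rw [jo_castSucc]
    simp [Fin.castSucc_inj]

theorem jo_deriv {n : ℕ} {g : ℝ → EE n} {g' : EE n} {s : ℝ} (hg : HasDerivAt g g' s) (z : ℝ) :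
    HasDerivAt (fun s => jo (g s) z) (J0 n g') s := by
  have h1 : (fun s => jo (g s) z) = fun s => (J0 n).toContinuousLinearMap (g s) + jo 0 z := by
    funext t
    exact jo_split (g t) z
  rw [h1]
  exact (((J0 n).toContinuousLinearMap.hasFDerivAt).comp_hasDerivAt s hg).add_const _

/-- the derivative in terms of the rotations -/
theorem fderiv_rot {n : ℕ} (f : EE (n + 1) → ℂ) (r z : ℝ) (c c' : EE n) (hc : ‖c‖ = 1)
    (hcc : inner ℝ c c' = 0) :
    fderiv ℝ f (jo (r • c) z) (J0 n (r • c')) =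
      ∑ i : Fin n, ∑ j : Fin n, (((c i * c' j : ℝ) : ℂ)) * rot i j f (jo (r • c) z) := by
  set D : Fin n → ℂ := fun j => fderiv ℝ f (jo (r • c) z) (EuclideanSpace.single j.castSucc 1)
    with hD
  have h1 : fderiv ℝ f (jo (r • c) z) (J0 n (r • c')) = ∑ j : Fin n, ((r * c' j : ℝ) : ℂ) * D j := by
    rw [J0_sum, map_sum]
    refine Finset.sum_congr rfl fun j _ => ?_
    rw [map_smul, PiLp.smul_apply, smul_eq_mul, hD]
    simp [Complex.real_smul]
  have hr : ∀ i j, rot i j f (jo (r • c) z) =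
      ((r * c i : ℝ) : ℂ) * D j - ((r * c j : ℝ) : ℂ) * D i := by
    intro i j
    rw [rot, jo_castSucc, jo_castSucc, PiLp.smul_apply, PiLp.smul_apply, smul_eq_mul, smul_eq_mul]
  have hsq : ∑ i : Fin n, c i * c i = 1 := by
    have h2 := real_inner_self_eq_norm_sq c
    rw [hc, PiLp.inner_apply] at h2
    simpa [pow_two] using h2
  have hor' : ∑ i : Fin n, c i * c' i = 0 := by
    rw [PiLp.inner_apply] at hcc
    have : ∀ i, inner ℝ (c i) (c' i) = c i * c' i := by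
      intro i
      rw [real_inner_eq_re_inner]
      simp [mul_comm]
    simpa [mul_comm] using hcc
  have hsqc : ∑ i : Fin n, ((c i : ℝ) : ℂ) * ((c i : ℝ) : ℂ) = 1 := by
    exact_mod_cast congrArg (fun t : ℝ => (t : ℂ)) hsq
  have horc : ∑ i : Fin n, ((c i : ℝ) : ℂ) * ((c' i : ℝ) : ℂ) = 0 := by
    exact_mod_cast congrArg (fun t : ℝ => (t : ℂ)) hor'
  rw [h1]
  have h2 : ∀ i j : Fin n, (((c i * c' j : ℝ) : ℂ)) * rot i j f (jo (r • c) z) =
      (((c i : ℝ) : ℂ) * ((c i : ℝ) : ℂ)) * (((r * c' j : ℝ) : ℂ) * D j) -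
      (((c j : ℝ) : ℂ) * ((c' j : ℝ) : ℂ)) * ((r : ℂ) * ((c i : ℝ) : ℂ) * D i) := by
    intro i j
    rw [hr]
    push_cast
    ring
  simp only [h2, Finset.sum_sub_distrib, ← Finset.mul_sum, ← Finset.sum_mul, hsqc, horc, one_mul,
    zero_mul, sub_zero]

end Pool.Agent.H69.BR
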