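import Pool.Agent.H69.BR.AD1

/-! # MP_ee74d2_an, BR board, module AD, part 2: pointwise estimate (helper69) -/

set_option autoImplicit false

namespace Pool.Agent.H69.BR

open MeasureTheory Set Pool.Agent.H83.LS Pool.Agent.H54.LS Pool.Agent.H93.AR Pool.Agent.H86.AR
open scoped ENNReal NNReal SchwartzMap

theorem vs_ge {n : ℕ} {w y : EE n} (hw : ‖w‖ = 1) (hy : ‖y‖ ≤ 1 / 2) {s : ℝ} (hs : s ∈ Icc (0 : ℝ) 1) :
    1 / 2 ≤ ‖w + s • y‖ := by
  have h1 : ‖s • y‖ ≤ 1 / 2 := by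
    rw [norm_smul, Real.norm_of_nonneg hs.1]
    nlinarith [hs.2, norm_nonneg y]
  have h2 : ‖w‖ ≤ ‖w + s • y‖ + ‖s • y‖ := by
    calc ‖w‖ = ‖(w + s • y) - s • y‖ := by rw [add_sub_cancel_right]
      _ ≤ _ := norm_sub_le _ _
  linarith

theorem coord_le {n : ℕ} (c : EE n) (i : Fin n) : |c i| ≤ ‖c‖ := PiLp.norm_apply_le c i

theorem rot_cont {n : ℕ} (f : 𝓢(EE (n + 1), ℂ)) (i j : Fin n) : Continuous (rot i j f) := by
  have hf : Continuous (fderiv ℝ f) := (f.smooth 1).continuous_fderiv (by norm_num)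
  unfold rot
  have h1 : ∀ k : Fin (n + 1), Continuous fun x : EE (n + 1) => ((x k : ℝ) : ℂ) := by
    intro k
    exact Complex.continuous_ofReal.comp (by fun_prop)
  have h2 : ∀ v : EE (n + 1), Continuous fun x : EE (n + 1) => fderiv ℝ f x v := fun v =>
    hf.clm_apply continuous_const
  exact ((h1 _).mul (h2 _)).sub ((h1 _).mul (h2 _))

/-- the estimate along one arc -/
theorem arc {n : ℕ} (f : 𝓢(EE (n + 1), ℂ)) (r z b : ℝ) {w y : EE n} (hw : ‖w‖ = 1)
    (hy : ‖y‖ ≤ b) (hb : b ≤ 1 / 2) :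
    ‖f (jo (r • w) z) - f (jo (r • un (w + y)) z)‖ₑ ≤ ENNReal.ofReal (4 * b) *
      ∫⁻ s in Ioc (0 : ℝ) 1, ∑ i : Fin n, ∑ j : Fin n,
        ‖rot i j f (jo (r • un (w + s • y)) z)‖ₑ := by
  have hy2 : ‖y‖ ≤ 1 / 2 := hy.trans hb
  have hb0 : 0 ≤ b := (norm_nonneg y).trans hy
  set γ' : ℝ → ℂ := fun s => fderiv ℝ f (jo (r • un (w + s • y)) z)
    (J0 n (r • du (w + s • y) y)) with hγ'
  have hne : ∀ s ∈ Icc (0 : ℝ) 1, w + s • y ≠ 0 := by
    intro s hs h
    have := vs_ge hw hy2 hs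
    rw [h, norm_zero] at this
    norm_num at this
  have hder : ∀ s ∈ Icc (0 : ℝ) 1,
      HasDerivAt (fun s : ℝ => f (jo (r • un (w + s • y)) z)) (γ' s) s := by
    intro s hs
    have h1 := (un_deriv w y s (hne s hs)).const_smul r
    have h2 := jo_deriv h1 z
    exact (f.differentiableAt.hasFDerivAt).comp_hasDerivAt s h2
  -- continuity of the derivative
  have hl : ContinuousOn (fun s : ℝ => w + s • y) (Icc (0 : ℝ) 1) := by fun_prop
  have hn : ContinuousOn (fun s : ℝ => ‖w + s • y‖⁻¹) (Icc (0 : ℝ) 1) :=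
    hl.norm.inv₀ fun s hs => norm_ne_zero_iff.2 (hne s hs)
  have hun : ContinuousOn (fun s : ℝ => un (w + s • y)) (Icc (0 : ℝ) 1) := hn.smul hl
  have hdu : ContinuousOn (fun s : ℝ => du (w + s • y) y) (Icc (0 : ℝ) 1) := by
    have h3 : ContinuousOn (fun s : ℝ => inner ℝ (w + s • y) y / ‖w + s • y‖ ^ 3)
        (Icc (0 : ℝ) 1) :=
      (hl.inner continuousOn_const).div (hl.norm.pow 3)
        fun s hs => pow_ne_zero 3 (norm_ne_zero_iff.2 (hne s hs))
    exact (hn.smul continuousOn_const).sub (h3.smul hl)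
  have hjo : ContinuousOn (fun s : ℝ => jo (r • un (w + s • y)) z) (Icc (0 : ℝ) 1) := by
    have h4 : ContinuousOn (fun s : ℝ => (r • un (w + s • y), z)) (Icc (0 : ℝ) 1) :=
      (hun.const_smul r).prodMk continuousOn_const
    exact continuous_jo.comp_continuousOn h4
  have hfd : Continuous (fderiv ℝ f) := (f.smooth 1).continuous_fderiv (by norm_num)
  have hcont : ContinuousOn γ' (Icc (0 : ℝ) 1) := by
    have h5 : ContinuousOn (fun s : ℝ => (J0 n).toContinuousLinearMap (r • du (w + s • y) y))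
        (Icc (0 : ℝ) 1) :=
      (J0 n).toContinuousLinearMap.continuous.comp_continuousOn (hdu.const_smul r)
    exact (hfd.comp_continuousOn hjo).clm_apply h5
  have huIcc : uIcc (0 : ℝ) 1 = Icc 0 1 := uIcc_of_le zero_le_one
  have hint : IntervalIntegrable γ' volume 0 1 := by
    refine ContinuousOn.intervalIntegrable ?_
    rw [huIcc]
    exact hcont
  have hftc : ∫ s in (0 : ℝ)..1, γ' s = f (jo (r • un (w + (1 : ℝ) • y)) z) -
      f (jo (r • un (w + (0 : ℝ) • y)) z) :=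
    intervalIntegral.integral_eq_sub_of_hasDerivAt (fun s hs => hder s (huIcc ▸ hs)) hint
  have hw0 : un (w + (0 : ℝ) • y) = w := by
    rw [zero_smul, add_zero, un, hw, inv_one, one_smul]
  rw [one_smul, hw0, intervalIntegral.integral_of_le zero_le_one] at hftc
  -- bound of the derivative
  have hbd : ∀ s ∈ Ioc (0 : ℝ) 1, ‖γ' s‖ₑ ≤ ENNReal.ofReal (4 * b) *
      ∑ i : Fin n, ∑ j : Fin n, ‖rot i j f (jo (r • un (w + s • y)) z)‖ₑ := by
    intro s hs
    have hs' : s ∈ Icc (0 : ℝ) 1 := Ioc_subset_Icc_self hs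
    have h6 := fderiv_rot f r z (un (w + s • y)) (du (w + s • y) y)
      (un_norm (hne s hs')) (un_inner_du (hne s hs') y)
    have h7 : γ' s = ∑ i : Fin n, ∑ j : Fin n,
        ((((un (w + s • y)) i * (du (w + s • y) y) j : ℝ) : ℂ)) *
          rot i j f (jo (r • un (w + s • y)) z) := h6
    rw [h7, Finset.mul_sum]
    refine (enorm_sum_le _ _).trans (Finset.sum_le_sum fun i _ => ?_)
    rw [Finset.mul_sum]
    refine (enorm_sum_le _ _).trans (Finset.sum_le_sum fun j _ => ?_)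
    rw [enorm_mul]
    refine mul_le_mul_left ?_ _
    rw [← ofReal_norm]
    refine ENNReal.ofReal_le_ofReal ?_
    rw [Complex.norm_real, Real.norm_eq_abs, abs_mul]
    have h8 : |(un (w + s • y)) i| ≤ 1 := by
      have := coord_le (un (w + s • y)) i
      rwa [un_norm (hne s hs')] at this
    have h9 : |(du (w + s • y) y) j| ≤ 4 * b := by
      refine (coord_le _ j).trans ((du_norm (hne s hs') y).trans ?_)
      have h10 := vs_ge hw hy2 hs'
      rw [div_le_iff₀ (by linarith)]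
      nlinarith
    calc |(un (w + s • y)) i| * |(du (w + s • y) y) j| ≤ 1 * (4 * b) :=
          mul_le_mul h8 h9 (abs_nonneg _) zero_le_one
      _ = 4 * b := one_mul _
  have hm : ∀ i j : Fin n, AEMeasurable (fun s : ℝ => ‖rot i j f (jo (r • un (w + s • y)) z)‖ₑ)
      (volume.restrict (Ioc (0 : ℝ) 1)) := by
    intro i j
    have h11 : ContinuousOn (fun s : ℝ => rot i j f (jo (r • un (w + s • y)) z))
        (Icc (0 : ℝ) 1) := (rot_cont f i j).comp_continuousOn hjo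
    exact ((h11.mono Ioc_subset_Icc_self).aestronglyMeasurable measurableSet_Ioc).enorm
  calc ‖f (jo (r • w) z) - f (jo (r • un (w + y)) z)‖ₑ
      = ‖f (jo (r • un (w + y)) z) - f (jo (r • w) z)‖ₑ := by rw [← enorm_neg, neg_sub]
    _ = ‖∫ s in Ioc (0 : ℝ) 1, γ' s‖ₑ := by rw [hftc]
    _ ≤ ∫⁻ s in Ioc (0 : ℝ) 1, ‖γ' s‖ₑ := enorm_integral_le_lintegral_enorm _
    _ ≤ ∫⁻ s in Ioc (0 : ℝ) 1, ENNReal.ofReal (4 * b) *
        ∑ i : Fin n, ∑ j : Fin n, ‖rot i j f (jo (r • un (w + s • y)) z)‖ₑ :=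
        setLIntegral_mono' measurableSet_Ioc hbd
    _ = _ := by
        rw [lintegral_const_mul' _ _ ENNReal.ofReal_ne_top]

/-! ### the measure -/

theorem eta0_zero' {s : ℝ} (hs : 2 ≤ s) : eta0 s = 0 :=
  Real.smoothTransition.zero_of_nonpos (by linarith)

theorem bump_zero' (n : ℕ) {L : ℝ} (hL : 0 < L) {y : EE n} (hy : 1 / (2 * L) ≤ ‖y‖) :
    bump n L y = 0 := by
  unfold bump
  rw [eta0_zero', mul_zero]
  rw [div_le_iff₀ (by positivity)] at hy
  linarith

theorem bump_cont (n : ℕ) (L : ℝ) : Continuous (bump n L) := by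
  unfold bump
  have : Continuous eta0 := by
    unfold eta0
    exact Real.smoothTransition.continuous.comp (by fun_prop)
  exact continuous_const.mul (this.comp (by fun_prop))

/-- the probability measure `bump(y) dy ds` -/
noncomputable def mu (n : ℕ) (L : ℝ) : Measure (EE n × ℝ) :=
  ((volume : Measure (EE n)).withDensity fun y => ENNReal.ofReal (bump n L y)).prod
    (volume.restrict (Ioc (0 : ℝ) 1))

theorem bump_mass (hZP : T_ZP) (hZN : T_ZN) {n : ℕ} {L : ℝ} (hn : 1 ≤ n) (hL : 1 ≤ L) :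
    ∫⁻ y : EE n, ENNReal.ofReal (bump n L y) = 1 := by
  have h1 := hZP n L 0 (fun _ => 1) hn (by linarith) measurable_const
  have h2 := hZN n L 0 hn hL (Or.inl rfl)
  simp only [mul_one] at h1
  rw [← h1, h2]

theorem lint_mu {n : ℕ} {L : ℝ} [SFinite ((volume : Measure (EE n)).withDensity
    fun y => ENNReal.ofReal (bump n L y))] (F : EE n × ℝ → ℝ≥0∞) (hF : Measurable F) :
    ∫⁻ q, F q ∂(mu n L) =
      ∫⁻ y : EE n, ENNReal.ofReal (bump n L y) * ∫⁻ s in Ioc (0 : ℝ) 1, F (y, s) := by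
  rw [mu, lintegral_prod _ hF.aemeasurable]
  have hm : Measurable fun y : EE n => ∫⁻ s in Ioc (0 : ℝ) 1, F (y, s) :=
    hF.lintegral_prod_right'
  rw [lintegral_withDensity_eq_lintegral_mul _ (bump_cont n L).measurable.ennreal_ofReal hm]
  rfl

theorem fin_wd (hZP : T_ZP) (hZN : T_ZN) {n : ℕ} {L : ℝ} (hn : 1 ≤ n) (hL : 1 ≤ L) :
    IsProbabilityMeasure ((volume : Measure (EE n)).withDensity
      fun y => ENNReal.ofReal (bump n L y)) :=
  ⟨by rw [withDensity_apply _ MeasurableSet.univ, Measure.restrict_univ,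
    bump_mass hZP hZN hn hL]⟩

theorem un_meas {n : ℕ} : Measurable (un : EE n → EE n) := by
  unfold un
  exact measurable_norm.inv.smul measurable_id

theorem meas_pos {n : ℕ} (r z : ℝ) (w : EE n) :
    Measurable fun q : EE n × ℝ => jo (r • un (w + q.2 • q.1)) z := by
  have h1 : Measurable fun q : EE n × ℝ => w + q.2 • q.1 :=
    measurable_const.add (measurable_snd.smul measurable_fst)
  have h2 : Measurable fun q : EE n × ℝ => (r • un (w + q.2 • q.1), z) :=
    ((un_meas.comp h1).const_smul r).prodMk measurable_const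
  exact continuous_jo.measurable.comp h2

/-- pointwise estimate -/
theorem point (hZP : T_ZP) (hZN : T_ZN) (hZB : T_ZB) {n : ℕ} {L p : ℝ} (hn : 1 ≤ n) (hL : 1 ≤ L)
    (hp : 1 ≤ p) (f : 𝓢(EE (n + 1), ℂ)) {r : ℝ} (hr : 0 < r) (w : Sp n) (z : ℝ) :
    ‖f (jo (r • (w : EE n)) z) - AL L f (jo (r • (w : EE n)) z)‖ₑ ^ p ≤
      (ENNReal.ofReal (2 / L)) ^ p * ((n : ℝ≥0∞) ^ (p - 1) * (n : ℝ≥0∞) ^ (p - 1)) *
        ∑ i : Fin n, ∑ j : Fin n, ∫⁻ y : EE n, ENNReal.ofReal (bump n L y) *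
          ∫⁻ s in Ioc (0 : ℝ) 1, ‖rot i j f (jo (r • un ((w : EE n) + s • y)) z)‖ₑ ^ p := by
  have hp0 : 0 ≤ p := by linarith
  have hL0 : 0 < L := by linarith
  have hpm := fin_wd hZP hZN hn hL
  have hpr2 : IsProbabilityMeasure (volume.restrict (Ioc (0 : ℝ) 1)) :=
    ⟨by rw [Measure.restrict_apply_univ, Real.volume_Ioc, sub_zero, ENNReal.ofReal_one]⟩
  have hpr : IsProbabilityMeasure (mu n L) := by
    unfold mu
    infer_instance
  obtain ⟨A, hA⟩ : ∃ A : ℝ, ∀ x, ‖f x‖ ≤ A := by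
    obtain ⟨C, hC⟩ := f.decay 0 0
    exact ⟨C, fun x => by simpa using hC.2 x⟩
  have hfm : Measurable (f : EE (n + 1) → ℂ) := f.continuous.measurable
  set x := jo (r • (w : EE n)) z with hx
  have hwn : ‖(w : EE n)‖ = 1 := sp_norm w
  -- the difference as an integral
  have hI1 : Integrable (fun w' : Sp n => ((zk n L (w : EE n) (w' : EE n) : ℝ) : ℂ) *
      f (jo (r • (w' : EE n)) z)) (sg n) := by
    refine Integrable.mul_bdd (c := A) (zk_integrable hZN hZB hn hL (Or.inr hwn)).ofReal ?_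
      (Filter.Eventually.of_forall fun w' => hA _)
    have h1 : Measurable fun w' : Sp n => jo (r • (w' : EE n)) z :=
      continuous_jo.measurable.comp
        ((measurable_subtype_coe.const_smul r).prodMk measurable_const)
    exact (hfm.comp h1).aestronglyMeasurable
  have hI2 : Integrable (fun w' : Sp n => ((zk n L (w : EE n) (w' : EE n) : ℝ) : ℂ) * f x)
      (sg n) := (zk_integrable hZN hZB hn hL (Or.inr hwn)).ofReal.mul_const _
  have h1 : f x - AL L f x = ∫ w' : Sp n, ((zk n L (w : EE n) (w' : EE n) : ℝ) : ℂ) *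
      (f x - f (jo (r • (w' : EE n)) z)) ∂(sg n) := by
    rw [hx, AL_jo L f hr, ← hx]
    simp only [mul_sub]
    rw [integral_sub hI2 hI1, integral_mul_const,
      zk_integral_c hZN hZB hn hL (Or.inr hwn), one_mul]
  set h : EE n → ℝ≥0∞ := fun v => ‖f x - f (jo (r • v) z)‖ₑ with hh
  have hhm : Measurable h := by
    have h2 : Continuous fun v : EE n => jo (r • v) z :=
      continuous_jo.comp ((continuous_const_smul r).prodMk continuous_const)
    exact (measurable_const.sub (hfm.comp h2.measurable)).enorm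
  have h2 : ‖f x - AL L f x‖ₑ ≤ ∫⁻ w' : Sp n, ENNReal.ofReal (zk n L (w : EE n) (w' : EE n)) *
      h w' ∂(sg n) := by
    rw [h1]
    refine (enorm_integral_le_lintegral_enorm _).trans (lintegral_mono fun w' => ?_)
    rw [enorm_mul]
    refine mul_le_mul_left ?_ _
    rw [← ofReal_norm, Complex.norm_real, Real.norm_of_nonneg (zk_nonneg hZB hn hL _ _)]
  rw [hZP n L (w : EE n) h hn hL0 hhm] at h2
  -- the arc estimate
  set G : EE n × ℝ → ℝ≥0∞ := fun q => ∑ i : Fin n, ∑ j : Fin n,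
    ‖rot i j f (jo (r • un ((w : EE n) + q.2 • q.1)) z)‖ₑ with hG
  have hRm : ∀ (i j : Fin n) (a : ℝ), Measurable fun q : EE n × ℝ =>
      ‖rot i j f (jo (r • un ((w : EE n) + q.2 • q.1)) z)‖ₑ ^ a := by
    intro i j a
    have h3 : Measurable fun x : EE (n + 1) => ‖rot i j f x‖ₑ ^ a :=
      (rot_cont f i j).measurable.enorm.pow_const a
    have h4 := h3.comp (meas_pos r z (w : EE n))
    exact h4
  have hGm : Measurable G := by
    refine Finset.measurable_sum _ fun i _ => Finset.measurable_sum _ fun j _ => ?_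
    have := hRm i j 1
    simpa only [ENNReal.rpow_one] using this
  have h3 : ∫⁻ y : EE n, ENNReal.ofReal (bump n L y) * h (‖(w : EE n) + y‖⁻¹ • ((w : EE n) + y)) ≤
      ENNReal.ofReal (2 / L) * ∫⁻ q, G q ∂(mu n L) := by
    rw [lint_mu G hGm, ← lintegral_const_mul' _ _ ENNReal.ofReal_ne_top]
    refine lintegral_mono fun y => ?_
    by_cases hy : 1 / (2 * L) ≤ ‖y‖
    · rw [bump_zero' n hL0 hy]
      simp
    · have h4 : (1 : ℝ) / (2 * L) ≤ 1 / 2 := by
        rw [div_le_div_iff₀ (by positivity) (by norm_num)]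
        linarith
      have h5 := arc f r z (1 / (2 * L)) hwn (not_le.1 hy).le h4
      have h6 : 4 * (1 / (2 * L)) = 2 / L := by field_simp; norm_num
      rw [h6] at h5
      calc ENNReal.ofReal (bump n L y) * h (‖(w : EE n) + y‖⁻¹ • ((w : EE n) + y))
          ≤ ENNReal.ofReal (bump n L y) * (ENNReal.ofReal (2 / L) *
            ∫⁻ s in Ioc (0 : ℝ) 1, G (y, s)) := mul_le_mul_right h5 _
        _ = _ := by ring
  have h4 : ‖f x - AL L f x‖ₑ ≤ ENNReal.ofReal (2 / L) * ∫⁻ q, G q ∂(mu n L) := h2.trans h3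
  have h5 := lint_rpow_le (mu n L) G hGm.aemeasurable p hp
  rw [measure_univ, ENNReal.one_rpow, one_mul] at h5
  have h6 : ∀ q, G q ^ p ≤ ((n : ℝ≥0∞) ^ (p - 1) * (n : ℝ≥0∞) ^ (p - 1)) *
      ∑ i : Fin n, ∑ j : Fin n, ‖rot i j f (jo (r • un ((w : EE n) + q.2 • q.1)) z)‖ₑ ^ p := by
    intro q
    have a1 := ENNReal.rpow_sum_le_const_mul_sum_rpow (Finset.univ : Finset (Fin n))
      (fun i => ∑ j : Fin n, ‖rot i j f (jo (r • un ((w : EE n) + q.2 • q.1)) z)‖ₑ) hp
    rw [Finset.card_univ, Fintype.card_fin] at a1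
    have a3 : ∑ i : Fin n, (∑ j : Fin n,
        ‖rot i j f (jo (r • un ((w : EE n) + q.2 • q.1)) z)‖ₑ) ^ p ≤ (n : ℝ≥0∞) ^ (p - 1) *
        ∑ i : Fin n, ∑ j : Fin n, ‖rot i j f (jo (r • un ((w : EE n) + q.2 • q.1)) z)‖ₑ ^ p := by
      rw [Finset.mul_sum]
      refine Finset.sum_le_sum fun i _ => ?_
      have a2 := ENNReal.rpow_sum_le_const_mul_sum_rpow (Finset.univ : Finset (Fin n))
        (fun j => ‖rot i j f (jo (r • un ((w : EE n) + q.2 • q.1)) z)‖ₑ) hp
      rwa [Finset.card_univ, Fintype.card_fin] at a2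
    calc G q ^ p ≤ (n : ℝ≥0∞) ^ (p - 1) * ∑ i : Fin n, (∑ j : Fin n,
          ‖rot i j f (jo (r • un ((w : EE n) + q.2 • q.1)) z)‖ₑ) ^ p := a1
      _ ≤ (n : ℝ≥0∞) ^ (p - 1) * ((n : ℝ≥0∞) ^ (p - 1) *
        ∑ i : Fin n, ∑ j : Fin n, ‖rot i j f (jo (r • un ((w : EE n) + q.2 • q.1)) z)‖ₑ ^ p) :=
          mul_le_mul_right a3 _
      _ = _ := by rw [mul_assoc]
  have hne : ((n : ℝ≥0∞) ^ (p - 1) * (n : ℝ≥0∞) ^ (p - 1)) ≠ ⊤ := by
    have : ((n : ℝ≥0∞) ^ (p - 1)) ≠ ⊤ :=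
      ENNReal.rpow_ne_top_of_nonneg (by linarith) (ENNReal.natCast_ne_top n)
    exact ENNReal.mul_ne_top this this
  calc ‖f x - AL L f x‖ₑ ^ p ≤ (ENNReal.ofReal (2 / L) * ∫⁻ q, G q ∂(mu n L)) ^ p :=
        ENNReal.rpow_le_rpow h4 hp0
    _ = ENNReal.ofReal (2 / L) ^ p * (∫⁻ q, G q ∂(mu n L)) ^ p :=
        ENNReal.mul_rpow_of_nonneg _ _ hp0
    _ ≤ ENNReal.ofReal (2 / L) ^ p * ∫⁻ q, G q ^ p ∂(mu n L) := mul_le_mul_right h5 _
    _ ≤ ENNReal.ofReal (2 / L) ^ p * ∫⁻ q, ((n : ℝ≥0∞) ^ (p - 1) * (n : ℝ≥0∞) ^ (p - 1)) *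
        ∑ i : Fin n, ∑ j : Fin n, ‖rot i j f (jo (r • un ((w : EE n) + q.2 • q.1)) z)‖ₑ ^ p
        ∂(mu n L) := mul_le_mul_right (lintegral_mono h6) _
    _ = _ := by
        rw [lintegral_const_mul' _ _ hne, ← mul_assoc]
        congr 1
        rw [lintegral_finsetSum _ fun i _ => Finset.measurable_sum _ fun j _ => hRm i j p]
        refine Finset.sum_congr rfl fun i _ => ?_
        rw [lintegral_finsetSum _ fun j _ => hRm i j p]
        refine Finset.sum_congr rfl fun j _ => ?_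
        exact lint_mu _ (hRm i j p)

end Pool.Agent.H69.BR
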